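import Pool.Agent.Helper3.WA.Defs

/-! Project WA: pieces WA-17 and WA-21. -/

set_option autoImplicit false

namespace Pool.Agent.Helper28.WA

open Finset
open Pool.Agent.Helper3.WA

section sys

variable (σ : SysA)

theorem p_pos (k : ℕ) : 0 < σ.p k := by
  have h1 := (σ.comp k).two_le
  have h2 := (σ.comp k).beta_pos
  have h3 := (σ.comp k).lab_le
  have h4 : 0 < 2 * σ.M k * σ.β k := Nat.mul_pos (by omega) (by omega)
  omega

theorem Q_pos (k m : ℕ) : 0 < (2 * σ.p k) ^ m :=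
  Nat.pow_pos (Nat.mul_pos (by norm_num) (p_pos σ k))

theorem W_pos (k : ℕ) : 0 < σ.W k := by
  unfold SysA.W
  exact Finset.prod_pos fun j _ => Q_pos σ j _

theorem W_succ (k : ℕ) : σ.W (k + 1) = σ.W k * (2 * σ.p k) ^ (2 * σ.M k) := by
  unfold SysA.W
  exact Finset.prod_range_succ _ _

theorem stack_lt {l s W Q : ℕ} (hl : 2 * l < W) (hs : 2 * s < Q) :
    2 * (l + W * s) < W * Q := by
  have h1 : 2 * s + 1 ≤ Q := hs
  have h2 : W * (2 * s + 1) ≤ W * Q := Nat.mul_le_mul_left _ h1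
  have h3 : 2 * (l + W * s) = 2 * l + W * (2 * s) := by ring
  have h4 : W * (2 * s + 1) = W * (2 * s) + W := by ring
  omega

theorem low_lt (k : ℕ) : ∀ l ∈ σ.Low k, 2 * l < σ.W k := by
  induction k with
  | zero =>
    intro l hl
    have h0 : l = 0 := hl
    subst h0
    exact W_pos σ 0
  | succ k ih =>
    intro l hl
    obtain ⟨l', hl', t, ht, rfl⟩ := hl
    rw [W_succ]
    exact stack_lt (ih l' hl') ((σ.comp k).T_lt t ht)

theorem part_lt {k N : ℕ} (hN : N < σ.M k) : ∀ a ∈ σ.Part k N,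
    2 * a < σ.W k * (2 * σ.p k) ^ (2 * (N + 1)) := by
  rintro a ⟨l, hl, s, hs, rfl⟩
  exact stack_lt (low_lt σ k l hl) ((σ.comp k).S_lt N hN s hs)

theorem part_ge {k N : ℕ} (hN : N < σ.M k) : ∀ a ∈ σ.Part k N,
    σ.W k * (2 * σ.p k) ^ (2 * N) ≤ a := by
  rintro a ⟨l, hl, s, hs, rfl⟩
  exact le_trans (Nat.mul_le_mul_left _ ((σ.comp k).S_ge N hN s hs)) (Nat.le_add_left _ _)

theorem W_mono {k K : ℕ} (h : k ≤ K) : σ.W k ≤ σ.W K := by
  induction K, h using Nat.le_induction with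
  | base => exact le_rfl
  | succ K _ ih =>
    rw [W_succ]
    exact le_trans ih (Nat.le_mul_of_pos_right _ (Q_pos σ K _))

theorem part_lt_W {k N K : ℕ} (hN : N < σ.M k) (hk : k < K) : ∀ a ∈ σ.Part k N,
    2 * a < σ.W K := by
  intro a ha
  have h1 := part_lt σ hN a ha
  have h3 : (2 * σ.p k) ^ (2 * (N + 1)) ≤ (2 * σ.p k) ^ (2 * σ.M k) :=
    Nat.pow_le_pow_right (Nat.mul_pos (by norm_num) (p_pos σ k)) (by omega)
  have h4 : σ.W k * (2 * σ.p k) ^ (2 * (N + 1)) ≤ σ.W (k + 1) := by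
    rw [W_succ]
    exact Nat.mul_le_mul_left _ h3
  exact lt_of_lt_of_le h1 (le_trans h4 (W_mono σ hk))

/-- cardinality of a stack -/
theorem stack_card {X U : Set ℕ} {W B a b : ℕ} (hX : ∀ x ∈ X, x < W) (hU : ∀ u ∈ U, u < B)
    (ha : a ≤ X.ncard) (hb : b ≤ U.ncard) :
    a * b ≤ ({m | ∃ x ∈ X, ∃ u ∈ U, m = x + W * u} : Set ℕ).ncard := by
  have hXf : X.Finite := (Set.finite_Iio W).subset hX
  have hUf : U.Finite := (Set.finite_Iio B).subset hU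
  have heq : ({m | ∃ x ∈ X, ∃ u ∈ U, m = x + W * u} : Set ℕ) =
      (fun q : ℕ × ℕ => q.1 + W * q.2) '' (X ×ˢ U) := by
    ext m
    constructor
    · rintro ⟨x, hx, u, hu, rfl⟩
      exact ⟨(x, u), ⟨hx, hu⟩, rfl⟩
    · rintro ⟨⟨x, u⟩, ⟨hx, hu⟩, rfl⟩
      exact ⟨x, hx, u, hu, rfl⟩
  have hinj : Set.InjOn (fun q : ℕ × ℕ => q.1 + W * q.2) (X ×ˢ U) := by
    rintro ⟨x, u⟩ ⟨hx, hu⟩ ⟨y, v⟩ ⟨hy, hv⟩ h
    have hx' : x < W := hX x hx
    have hy' : y < W := hX y hy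
    have h' : x + W * u = y + W * v := h
    have h1 : (x + W * u) % W = (y + W * v) % W := by rw [h']
    have h2 : (x + W * u) / W = (y + W * v) / W := by rw [h']
    have hW : 0 < W := by omega
    rw [Nat.add_mul_mod_self_left, Nat.add_mul_mod_self_left, Nat.mod_eq_of_lt hx',
      Nat.mod_eq_of_lt hy'] at h1
    rw [Nat.add_mul_div_left _ _ hW, Nat.add_mul_div_left _ _ hW, Nat.div_eq_of_lt hx',
      Nat.div_eq_of_lt hy'] at h2
    have h3 : u = v := by omega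
    rw [h1, h3]
  rw [heq, hinj.ncard_image, Set.ncard_prod]
  exact Nat.mul_le_mul ha hb

theorem low_card (k : ℕ) : σ.cl k ≤ (σ.Low k).ncard := by
  induction k with
  | zero =>
    have h : (σ.Low 0) = ({0} : Set ℕ) := rfl
    rw [h, Set.ncard_singleton]
    simp [SysA.cl]
  | succ k ih =>
    have h0 : σ.cl (k + 1) = σ.cl k * (σ.β k * σ.p k ^ (σ.M k - 1)) := by
      unfold SysA.cl
      exact Finset.prod_range_succ _ _
    rw [h0]
    exact stack_card (W := σ.W k) (B := (2 * σ.p k) ^ (2 * σ.M k))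
      (fun x hx => by have := low_lt σ k x hx; omega)
      (fun u hu => by have := (σ.comp k).T_lt u hu; omega) ih (σ.comp k).T_card

theorem part_card {k N y : ℕ} (hN : N < σ.M k) (hy : 2 ^ (2 * σ.l k + 8) ≤ y)
    (hy2 : y ≤ (2 * σ.p k) ^ 2) :
    y * (σ.cl k * cw (σ.p k) (σ.β k) N) ^ 2 ≤
      (2 ^ (σ.l k + 3) *
        (σ.Part k N ∩ Set.Iio (σ.W k * (2 * σ.p k) ^ (2 * N) * y)).ncard) ^ 2 := by
  have hS := (σ.comp k).S_card N hN y hy hy2
  set X := σ.S k N ∩ Set.Iio ((2 * σ.p k) ^ (2 * N) * y) with hX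
  have h1 : σ.cl k * X.ncard ≤
      ({m | ∃ x ∈ σ.Low k, ∃ u ∈ X, m = x + σ.W k * u} : Set ℕ).ncard :=
    stack_card (W := σ.W k) (B := (2 * σ.p k) ^ (2 * N) * y)
      (fun x hx => by have := low_lt σ k x hx; omega)
      (fun u hu => hu.2) (low_card σ k) le_rfl
  have h2 : ({m | ∃ x ∈ σ.Low k, ∃ u ∈ X, m = x + σ.W k * u} : Set ℕ) ⊆
      σ.Part k N ∩ Set.Iio (σ.W k * (2 * σ.p k) ^ (2 * N) * y) := by
    rintro m ⟨x, hx, u, hu, rfl⟩
    refine ⟨⟨x, hx, u, hu.1, rfl⟩, ?_⟩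
    have h3 : x < σ.W k := by have := low_lt σ k x hx; omega
    have h4 : u + 1 ≤ (2 * σ.p k) ^ (2 * N) * y := hu.2
    have h5 : σ.W k * (u + 1) ≤ σ.W k * ((2 * σ.p k) ^ (2 * N) * y) :=
      Nat.mul_le_mul_left _ h4
    have h6 : σ.W k * ((2 * σ.p k) ^ (2 * N) * y) = σ.W k * (2 * σ.p k) ^ (2 * N) * y := by ring
    have h7 : σ.W k * (u + 1) = σ.W k * u + σ.W k := by ring
    show x + σ.W k * u < σ.W k * (2 * σ.p k) ^ (2 * N) * y
    omega
  have h3 : σ.cl k * X.ncard ≤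
      (σ.Part k N ∩ Set.Iio (σ.W k * (2 * σ.p k) ^ (2 * N) * y)).ncard :=
    le_trans h1 (Set.ncard_le_ncard h2 ((Set.finite_Iio _).subset Set.inter_subset_right))
  calc y * (σ.cl k * cw (σ.p k) (σ.β k) N) ^ 2
      = σ.cl k ^ 2 * (y * cw (σ.p k) (σ.β k) N ^ 2) := by ring
    _ ≤ σ.cl k ^ 2 * (2 ^ (σ.l k + 3) * X.ncard) ^ 2 := Nat.mul_le_mul_left _ hS
    _ = (2 ^ (σ.l k + 3) * (σ.cl k * X.ncard)) ^ 2 := by ring
    _ ≤ _ := Nat.pow_le_pow_left (Nat.mul_le_mul_left _ h3) 2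

end sys

end Pool.Agent.Helper28.WA
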